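import Pool.Agent.helper88.RQ2.Spec

/-!
# Project RQ, row C8: rank three, at least eight points
-/

set_option autoImplicit false

open Set Matroid RadonMin

namespace RadonQ2

lemma C8_short (n t c : ℕ) (hn : 8 ≤ n) (ht : 3 * t ≤ n.choose 2)
    (hc : n.choose 4 + t ≤ c + t * (n - 3)) : hh n < c := by
  have h1 := hh_cast_big n hn
  have h2 := choose_four_cast n
  have h3 := two_mul_choose_two n
  have h4 : ((n - 3 : ℕ) : ℤ) = n - 3 := by
    rw [Nat.cast_sub (by omega)]; simp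
  zify at ht hc ⊢
  rw [h4] at hc
  have hn' : (8 : ℤ) ≤ n := by exact_mod_cast hn
  obtain ⟨x, hx⟩ : ∃ x : ℤ, (n : ℤ) = x + 8 := ⟨n - 8, by ring⟩
  have hx0 : 0 ≤ x := by linarith
  have ht' : 6 * (t : ℤ) ≤ n * (n - 1) := by linarith
  have h5 : 6 * (t : ℤ) * (n - 4) ≤ n * (n - 1) * (n - 4) :=
    mul_le_mul_of_nonneg_right ht' (by linarith)
  have h6 : (24 : ℤ) * c ≥ n * (n - 1) * (n - 2) * (n - 3) - 4 * (n * (n - 1) * (n - 4)) := by
    nlinarith
  rw [hx] at h6 h1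
  have h7 : (x + 8) * (x + 8 - 1) * (x + 8 - 2) * (x + 8 - 3) - 4 * ((x + 8) * (x + 8 - 1) * (x + 8 - 4))
      - 4 * ((x + 8 - 1) * (x + 8 - 2) * (x + 8 - 3) - 6 * (x + 8 - 4)) =
      (x + 4) * (x ^ 3 + 14 * x ^ 2 + 47 * x + 10) := by ring
  have h8 : 0 < (x + 4) * (x ^ 3 + 14 * x ^ 2 + 47 * x + 10) := by positivity
  linarith

/-- the arithmetic of the count with a long line -/
lemma C8_id (l u n C3 C2 U2 U3 h : ℤ) (hn : n = l + u) (c1 : 6 * C3 = l * (l - 1) * (l - 2))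
    (c2 : 2 * C2 = (l - 1) * (l - 2)) (c3 : 2 * U2 = u * (u - 1)) (c4 : 6 * U3 = u * (u - 1) * (u - 2))
    (c5 : 6 * h = (n - 1) * (n - 2) * (n - 3) - 6 * (n - 4)) :
    12 * (C3 + U2 * (1 + C2) + U3 - h) =
      3 * ((u - 1) * (u - 2) * ((l - 2) * (l - 3))) - 12 * ((u - 1) * (l - 2)) + 12 * (l + u - 4) := by
  subst hn
  have c6 : 4 * (U2 * C2) = u * (u - 1) * ((l - 1) * (l - 2)) := by
    rw [← c2, ← c3]; ring
  linear_combination 2 * c1 + 6 * c3 + 3 * c6 + 2 * c4 - 2 * c5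

lemma C8_pos (l u : ℤ) (hl : 4 ≤ l) (hu : 1 ≤ u) (hu2 : u ≠ 2) (hn : 8 ≤ l + u) :
    0 < 3 * ((u - 1) * (u - 2) * ((l - 2) * (l - 3))) - 12 * ((u - 1) * (l - 2)) + 12 * (l + u - 4) := by
  rcases lt_trichotomy u 3 with h | h | h
  · have h1 : u = 1 := by omega
    subst h1
    linarith
  · subst h
    obtain ⟨a, rfl⟩ : ∃ a, l = a + 5 := ⟨l - 5, by ring⟩
    have ha : 0 ≤ a := by linarith
    have : 3 * ((3 - 1) * (3 - 2) * ((a + 5 - 2) * (a + 5 - 3))) - 12 * ((3 - 1) * (a + 5 - 2)) + 12 * (a + 5 + 3 - 4) =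
      6 * ((a + 2) * (a + 1)) := by ring
    rw [this]; positivity
  · obtain ⟨a, rfl⟩ : ∃ a, l = a + 4 := ⟨l - 4, by ring⟩
    obtain ⟨b, rfl⟩ : ∃ b, u = b + 4 := ⟨u - 4, by ring⟩
    have ha : 0 ≤ a := by linarith
    have hb : 0 ≤ b := by omega
    have : 3 * ((b + 4 - 1) * (b + 4 - 2) * ((a + 4 - 2) * (a + 4 - 3))) - 12 * ((b + 4 - 1) * (a + 4 - 2))
      + 12 * (a + 4 + (b + 4) - 4) =
      3 * (a ^ 2 * b ^ 2 + 3 * (a * b ^ 2) + 5 * (a ^ 2 * b) + 11 * (a * b) + 2 * b ^ 2 + 6 * a ^ 2 + 6 * b + 10 * a + 4) := by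
      ring
    rw [this]; positivity

theorem C8_proof (hGTR : GTR_stmt) (hGCO : GCO_stmt) (hC0 : C0_stmt) : C8_stmt := by
  intro V _ _ _ X hr hn hci
  have hs := affMat_simp X
  obtain ⟨E', L, D⟩ := exists_lineData (affMat X) hs hr
  have hE' : E' = X := by
    have := D.coe_E
    rw [affMat_E] at this
    exact_mod_cast this
  subst hE'
  have hlu : L.card + (E' \ L).card = E'.card := by
    rw [Finset.card_sdiff_of_subset D.sub]
    have := Finset.card_le_card D.sub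
    omega
  have hL : 4 ≤ L.card := by
    by_contra hL
    have h1 := D.cc_ge_short
    have h2 := D.three_mul_triangles_le (by omega)
    have h3 := C8_short E'.card _ _ hn h2 h1
    unfold ci at hci
    omega
  obtain ⟨u, hu⟩ : ∃ u, (E' \ L).card = u := ⟨_, rfl⟩
  have htr := D.cc_ge_trace hL
  rw [hu] at htr hlu
  have c1 := six_mul_choose_three L.card
  have c2 := two_mul_choose_two (L.card - 1)
  have c3 := two_mul_choose_two u
  have c4 := six_mul_choose_three u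
  have c5 := hh_cast_big E'.card hn
  have hLc : ((L.card - 1 : ℕ) : ℤ) = L.card - 1 := by
    rw [Nat.cast_sub (by omega)]; simp
  rw [hLc] at c2
  have c2' : 2 * (((L.card - 1).choose 2 : ℕ) : ℤ) = ((L.card : ℤ) - 1) * ((L.card : ℤ) - 2) := by
    rw [c2]; ring
  have hid := C8_id (L.card : ℤ) (u : ℤ) (E'.card : ℤ) _ _ _ _ _ (by exact_mod_cast hlu.symm) c1 c2' c3 c4 c5
  have hcZ : ((ci E' : ℕ) : ℤ) ≤ (hh E'.card : ℤ) := by exact_mod_cast hci
  have htrZ : ((L.card.choose 3 : ℕ) : ℤ) + ((u.choose 2 : ℕ) : ℤ) * (1 + (((L.card - 1).choose 2 : ℕ) : ℤ))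
      + ((u.choose 3 : ℕ) : ℤ) ≤ (ci E' : ℤ) := by
    unfold ci
    exact_mod_cast htr
  have hlZ : (4 : ℤ) ≤ L.card := by exact_mod_cast hL
  have hu1 : 1 ≤ u := by
    by_contra hu0
    have h0 : (E' \ L).card = 0 := by omega
    rw [Finset.card_eq_zero, Finset.sdiff_eq_empty_iff_subset] at h0
    have h1 : L = E' := Finset.Subset.antisymm D.sub h0
    have h2 := D.rk_L
    rw [h1, D.coe_E, D.rk_E] at h2
    omega
  have hu2 : u = 2 := by
    by_contra hne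
    have h1 := C8_pos (L.card : ℤ) (u : ℤ) hlZ (by exact_mod_cast hu1) (by exact_mod_cast hne)
      (by exact_mod_cast (by omega : 8 ≤ L.card + u))
    rw [← hid] at h1
    linarith
  subst hu2
  -- the two outside points are on a line with a point of `L`
  have hY : (E' \ L) ∈ (E' \ L).powersetCard 2 := by
    rw [Finset.mem_powersetCard]
    exact ⟨Finset.Subset.refl _, hu⟩
  obtain ⟨p, hp, hpc⟩ : ∃ p ∈ L, (affMat E').IsCircuit ((insert p (E' \ L) : Finset V) : Set V) := by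
    by_contra hcon
    push Not at hcon
    have h1 := hC0 V (affMat E') E' L D hL _ hY hcon
    rw [hu] at h1
    have h2 : ((L.card.choose 3 : ℕ) : ℤ) + (((2 : ℕ).choose 2 : ℕ) : ℤ) * (1 + (((L.card - 1).choose 2 : ℕ) : ℤ))
      + (((2 : ℕ).choose 3 : ℕ) : ℤ) + ((L.card - 2 : ℕ) : ℤ) ≤ (ci E' : ℤ) := by
      unfold ci
      exact_mod_cast h1
    have h3 : (2 : ℤ) ≤ ((L.card - 2 : ℕ) : ℤ) := by
      exact_mod_cast (by omega : 2 ≤ L.card - 2)
    push_cast at hid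
    linarith
  obtain ⟨y, z, hyz, hYe⟩ := Finset.card_eq_two.1 hu
  have hyE : y ∈ E' \ L := by rw [hYe]; simp
  have hzE : z ∈ E' \ L := by rw [hYe]; simp
  rw [Finset.mem_sdiff] at hyE hzE
  have hpE := D.sub hp
  have hpy : p ≠ y := fun h => hyE.2 (h ▸ hp)
  have hpz : p ≠ z := fun h => hzE.2 (h ▸ hp)
  refine ⟨L, p, y, z, by omega, by omega, ?_, ?_, hp, ?_, ?_⟩
  · have h1 : E' = L ∪ (E' \ L) := by
      rw [Finset.union_sdiff_of_subset D.sub]
    rw [hYe] at h1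
    conv_lhs => rw [h1]
    push_cast
    rfl
  · rw [← hGCO]
    have h1 := D.rk_L
    have h2 : rk (affMat L) (L : Set V) = rk (affMat E') (L : Set V) := by
      rw [← affMat_restrict E' D.sub, rk_restrict (affMat E') (le_refl _)]
    unfold ra
    rw [h2]
    exact h1
  · rw [← hGTR V E' p y z hpE hyE.1 hzE.1 hpy hyz hpz]
    rw [hYe] at hpc
    unfold Tri
    simpa using hpc
  · rw [← hGCO, hr]
    omega

end RadonQ2
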